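import Pool.Agent.Mut.Main
import Pool.Agent.Mut.Enum

/-!
# Random hill-climbing mutation is slower than linear

For every optimal self-delimiting machine `U`, every computable enumeration `p` of its halting
programs and every starting organism, the expected mutation time `E[T_N]` of the random walk to
reach fitness `BB'(N)` satisfies `E[T_N] / N → ∞`.
-/

open MeasureTheory Filter
open scoped ENNReal NNReal Topology

namespace Pool.Agent.Results.MP_4a10c0_lc.Superlinear

open Pool.Agent.Mut

/-- Optimal machines exist, computable enumerations of their halting programs exist, and for all of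
them and every starting organism with a fitness, `E[T_N] / N` tends to infinity; in particular
`limsup E[T_N] / N = ∞`. -/
theorem result :
    (∃ U : List Bool → List Bool →. ℕ, IsOptimal U) ∧
    (∀ U : List Bool → List Bool →. ℕ, IsOptimal U → ∃ p : ℕ → List Bool, IsEnumeration U p) ∧
    ∀ U : List Bool → List Bool →. ℕ, IsOptimal U →
      ∀ p : ℕ → List Bool, IsEnumeration U p →
      ∀ A : List Bool, (U A []).Dom →
        Tendsto (fun N : ℕ => (∫⁻ ω, mutationTime U p A N ω ∂coins) / (N : ℝ≥0∞)) atTop (𝓝 ∞) ∧
        limsup (fun N : ℕ => (∫⁻ ω, mutationTime U p A N ω ∂coins) / (N : ℝ≥0∞)) atTop = ∞ :=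
  ⟨exists_optimal, fun _ hU => exists_enumeration hU,
    fun U hU p hp A _ => main U hU p hp A⟩

end Pool.Agent.Results.MP_4a10c0_lc.Superlinear
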